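import Mathlib
import Pool.Agent.V11172.TmSpecial

/-!
# MP_aa4033_co, Q1: a linear bound for monochromatic progressions in the Thue–Morse word

For every `d ≥ 1` one has `A_t(d) ≤ d + 5`, with equality if and only if `d = 2 ^ k - 1` for
some even `k ≥ 2`.
-/

namespace Pool.Agent.Results.MP_aa4033_co.LinearBound

open Pool.Agent.V11172.Tm

/-- The Thue–Morse word: the parity of the number of ones in the binary expansion. -/
def tm (n : ℕ) : ℕ := (Nat.digits 2 n).sum % 2

/-- `A_t(n, d)`: the supremum of the lengths `l ≥ 1` of the monochromatic progressions of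
difference `d` which start at index `n`. -/
noncomputable def AStart (n d : ℕ) : ℕ∞ :=
  ⨆ (l : ℕ) (_ : 1 ≤ l ∧ ∀ i < l, tm (n + i * d) = tm n), (l : ℕ∞)

/-- `A_t(d)`: the supremum over all starting points. -/
noncomputable def A (d : ℕ) : ℕ∞ := ⨆ n : ℕ, AStart n d

lemma half {n d L : ℕ} (h : Mono n (2 * d) L) : Mono (n / 2) d L := by
  obtain ⟨c, hc⟩ := h
  rcases Nat.even_or_odd' n with ⟨m, hm | hm⟩
  · refine ⟨c, fun l hl => ?_⟩
    have := hc l hl
    rw [hm, show 2 * m + l * (2 * d) = 2 * (m + l * d) by ring, t_even] at this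
    rw [hm, show 2 * m / 2 = m by omega]
    exact this
  · refine ⟨c + 1, fun l hl => ?_⟩
    have := hc l hl
    rw [hm, show 2 * m + 1 + l * (2 * d) = 2 * (m + l * d) + 1 by ring, t_odd] at this
    rw [hm, show (2 * m + 1) / 2 = m by omega]
    linear_combination this - aa 1

lemma gen6 : ∀ (d : ℕ), 1 ≤ d → ∀ n, ¬ Mono n d (d + 6) := by
  intro d
  induction d using Nat.strong_induction_on with
  | _ d ih =>
    intro hd n hm
    rcases Nat.even_or_odd' d with ⟨e, he | he⟩
    · subst he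
      exact ih e (by omega) (by omega) (n / 2) ((half hm).mono (by omega))
    · by_cases hk : ∃ k, 2 ≤ k ∧ k % 2 = 0 ∧ d = 2 ^ k - 1
      · obtain ⟨k, hk2, hk, hdk⟩ := hk
        have := minus_even (n := n) hk hk2
        rw [← hdk] at this
        apply this
        apply hm.mono
        omega
      · push Not at hk
        exact odd_case (n := n) (by omega) hk (hm.mono (by omega))

lemma gen5 {d n : ℕ} (hd : 1 ≤ d) (hk : ∀ k, 2 ≤ k → k % 2 = 0 → d ≠ 2 ^ k - 1) :
    ¬ Mono n d (d + 5) := by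
  intro hm
  rcases Nat.even_or_odd' d with ⟨e, he | he⟩
  · subst he
    exact gen6 e (by omega) (n / 2) ((half hm).mono (by omega))
  · exact odd_case (by omega) hk hm

lemma tm_eq_iff (a b : ℕ) : tm a = tm b ↔ t a = t b := by
  unfold tm t
  rw [ZMod.natCast_eq_natCast_iff']

lemma A_le {d B : ℕ} (h : ∀ n, ¬ Mono n d (B + 1)) : A d ≤ (B : ℕ∞) := by
  unfold A AStart
  refine iSup_le fun n => iSup_le fun l => iSup_le fun hl => ?_
  rw [Nat.cast_le]
  by_contra hlt
  apply h n
  exact ⟨t n, fun i hi => (tm_eq_iff _ _).1 (hl.2 i (by omega))⟩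

/-- **Q1 of MP_aa4033_co.** -/
theorem result : ∀ d : ℕ, 1 ≤ d →
    A d ≤ (d : ℕ∞) + 5 ∧ (A d = (d : ℕ∞) + 5 ↔ ∃ k, 2 ≤ k ∧ Even k ∧ d = 2 ^ k - 1) := by
  intro d hd
  have hle : A d ≤ (d : ℕ∞) + 5 := by
    have := A_le (d := d) (B := d + 5) (fun n => gen6 d hd n)
    push_cast at this
    exact this
  refine ⟨hle, ?_, ?_⟩
  · intro h
    by_contra hk
    push Not at hk
    have h2 := A_le (d := d) (B := d + 4) (fun n => gen5 hd (fun k h1 h2 => hk k h1
      (Nat.even_iff.2 h2)))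
    rw [h] at h2
    have h3 : d + 5 ≤ d + 4 := by exact_mod_cast h2
    omega
  · rintro ⟨k, hk2, hk, rfl⟩
    have hk4 : 4 ≤ 2 ^ k := by
      calc 4 = 2 ^ 2 := by norm_num
        _ ≤ 2 ^ k := Nat.pow_le_pow_right (by norm_num) hk2
    apply le_antisymm hle
    have hlong := minus_long k (Nat.even_iff.1 hk) hk2
    have h1 : ((2 ^ k + 4 : ℕ) : ℕ∞) ≤
        AStart (2 ^ k * (3 * 2 ^ k - 1) + 1) (2 ^ k - 1) := by
      unfold AStart
      refine le_iSup_of_le (2 ^ k + 4) (le_iSup_of_le ⟨by omega, fun i hi => ?_⟩ le_rfl)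
      rw [tm_eq_iff, hlong i hi]
      have h0 := hlong 0 (by omega)
      rw [zero_mul, add_zero] at h0
      exact h0.symm
    have h2 : (((2 ^ k - 1 : ℕ) : ℕ∞)) + 5 = ((2 ^ k + 4 : ℕ) : ℕ∞) := by
      have : 2 ^ k + 4 = (2 ^ k - 1) + 5 := by omega
      rw [this]
      push_cast
      rfl
    rw [h2]
    exact h1.trans (le_iSup (fun n => AStart n (2 ^ k - 1)) _)

end Pool.Agent.Results.MP_aa4033_co.LinearBound
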